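import Pool.Agent.R978.PM.D

set_option autoImplicit false

/-!
# Residues of the partition function with randomly deleted parts (MP_6d7a37_nt)

Let `R` be a random set of positive integers, the events `a ∈ R` being independent, and suppose that
`K √(log a / a) ≤ P (a ∈ R) ≤ 1 - K √(log a / a)` for every `K` and all large `a`. Let `p_R n` be the
number of partitions of `n` with no part in `R`. For every strictly increasing sequence `s` of natural
numbers, almost surely for every modulus `m` and every `L` all words of length `L` over `ℤ / m` occur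
with the same frequency `m ^ (-L)` among the words `p_R (s k), …, p_R (s k + L - 1)` modulo `m`. The
same is true for the coefficients of `B(q) P_R(q)`, `P_R(q)` the generating series of `p_R`, for every
integer sequence `B` with `B 0 = 1`.

Method. For `n ≤ 2 h + 1` a partition of `n` has at most one part `> h`; so, given the elements of `R`
up to `h`, a linear form in the values of `p_R` modulo `m` with the largest argument `u ≤ 2 h + 1` is
an affine function of the indicators of the events `a ∈ R`, `h < a ≤ u`, and the coefficient of the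
indicator of `a` is a linear form with the largest argument `u - a`, which changes with the indicator of
`u - a ∈ R`. Hence its expected character value is at most `(1 - κ σ ^ 2) ^ (u / 2 - O(1))`, where
`σ = K √(log u / u)` and `κ` depends on `m`, which is `O(1 / u)` for large `K`.
-/

namespace Pool.Agent.Results.MP_6d7a37_nt.RandomlyDeletedParts

open MeasureTheory ProbabilityTheory Filter Topology

/-- the number of partitions of `n` none of whose parts is in `R` -/
noncomputable def partitionsAvoiding (R : Set ℕ) (n : ℕ) : ℕ :=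
  Nat.card {p : Nat.Partition n // ∀ a ∈ p.parts, a ∉ R}

theorem result {Ω : Type} [MeasurableSpace Ω] {P : Measure Ω} [IsProbabilityMeasure P]
    (R : Ω → Set ℕ) (hm : ∀ a : ℕ, MeasurableSet {ω | a ∈ R ω})
    (hi : iIndepSet (fun a : ℕ => {ω | a ∈ R ω}) P)
    (hR : ∀ K : ℝ, ∀ᶠ a : ℕ in atTop, K * √(Real.log a / a) ≤ P.real {ω | a ∈ R ω} ∧
      P.real {ω | a ∈ R ω} ≤ 1 - K * √(Real.log a / a))
    (s : ℕ → ℕ) (hs : StrictMono s) :
    (∀ᵐ ω ∂P, ∀ m : ℕ, 1 ≤ m → ∀ (L : ℕ) (w : Fin L → ZMod m),
      Tendsto (fun x : ℕ => (((Finset.range x).filter fun k => ∀ i : Fin L,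
        (partitionsAvoiding (R ω) (s k + i) : ZMod m) = w i).card : ℝ) / x)
        atTop (𝓝 ((1 / (m : ℝ)) ^ L))) ∧
    ∀ B : ℕ → ℤ, B 0 = 1 → ∀ᵐ ω ∂P, ∀ m : ℕ, 1 ≤ m → ∀ (L : ℕ) (w : Fin L → ZMod m),
      Tendsto (fun x : ℕ => (((Finset.range x).filter fun k => ∀ i : Fin L,
        ((∑ ab ∈ Finset.HasAntidiagonal.antidiagonal (s k + (i : ℕ)),
          B ab.1 * (partitionsAvoiding (R ω) ab.2 : ℤ) : ℤ) : ZMod m) = w i).card : ℝ) / x)
        atTop (𝓝 ((1 / (m : ℝ)) ^ L)) := by
  have key : ∀ B : ℕ → ℤ, B 0 = 1 → ∀ᵐ ω ∂P, ∀ m : ℕ, 1 ≤ m → ∀ (L : ℕ) (w : Fin L → ZMod m),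
      Tendsto (fun x : ℕ => (((Finset.range x).filter fun k => ∀ i : Fin L,
        ((∑ ab ∈ Finset.HasAntidiagonal.antidiagonal (s k + (i : ℕ)),
          B ab.1 * (partitionsAvoiding (R ω) ab.2 : ℤ) : ℤ) : ZMod m) = w i).card : ℝ) / x)
        atTop (𝓝 ((1 / (m : ℝ)) ^ L)) := by
    intro B hB
    rw [ae_all_iff]
    intro m
    by_cases hm1 : 1 ≤ m
    · haveI : NeZero m := ⟨by omega⟩
      have h1 := Pool.Agent.R978.PM.main R hm hi hR
        (B := PowerSeries.mk fun j => (B j : ZMod m))
        (by rw [PowerSeries.coeff_mk, hB, Int.cast_one]) hs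
      filter_upwards [h1] with ω hω _ L w
      refine (hω L w).congr fun x => ?_
      congr 2
      refine congrArg Finset.card (Finset.filter_congr fun k _ => forall_congr' fun i => ?_)
      rw [Pool.Agent.R978.PM.cB_gen]
      rfl
    · exact Eventually.of_forall fun ω h => absurd h hm1
  refine ⟨?_, key⟩
  have h2 := key (fun j => if j = 0 then 1 else 0) (if_pos rfl)
  filter_upwards [h2] with ω hω m hm1 L w
  refine (hω m hm1 L w).congr fun x => ?_
  congr 2
  refine congrArg Finset.card (Finset.filter_congr fun k _ => forall_congr' fun i => ?_)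
  have h3 : ∑ ab ∈ Finset.HasAntidiagonal.antidiagonal (s k + (i : ℕ)),
      (if ab.1 = 0 then (1 : ℤ) else 0) * (partitionsAvoiding (R ω) ab.2 : ℤ) =
      (partitionsAvoiding (R ω) (s k + i) : ℤ) := by
    rw [Finset.sum_eq_single (0, s k + (i : ℕ))]
    · simp
    · rintro ⟨a, b⟩ hab hne
      rw [Finset.HasAntidiagonal.mem_antidiagonal] at hab
      simp only at hab ⊢
      rw [if_neg, zero_mul]
      rintro rfl
      apply hne
      rw [zero_add] at hab
      rw [hab]
    · intro h
      exact absurd (Finset.HasAntidiagonal.mem_antidiagonal.2 (zero_add _)) h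
  rw [h3]
  simp

end Pool.Agent.Results.MP_6d7a37_nt.RandomlyDeletedParts
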